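import Pool.Agent.PSS.StmtsS0

/-!
# Squad PSS, block S0, row RES
-/

open scoped BigOperators

namespace Pool.Agent.PSS.H91

open Pool.Agent.PFC (tw IsTv)

theorem isTv_map {G H : Type} [Group G] [Group H] (f : G →* H) (hf : Function.Injective f)
    (P' P : Subgroup G) (S : Finset G) :
    IsTv (P'.map f) (P.map f) (S.map ⟨f, hf⟩) ↔ IsTv P' P S := by
  constructor
  · rintro ⟨h1, h2⟩
    refine ⟨?_, ?_⟩
    · intro s hs
      exact (Subgroup.mem_map_iff_mem hf).1 (h1 (f s) (Finset.mem_map.2 ⟨s, hs, rfl⟩))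
    · intro p hp
      obtain ⟨s, ⟨hs1, hs2⟩, hs3⟩ := h2 (f p) (Subgroup.mem_map_of_mem f hp)
      obtain ⟨s0, hs0, rfl⟩ := Finset.mem_map.1 hs1
      refine ⟨s0, ⟨hs0, ?_⟩, ?_⟩
      · have h3 : (f s0)⁻¹ * f p ∈ P'.map f := hs2
        rw [← map_inv, ← map_mul] at h3
        exact (Subgroup.mem_map_iff_mem hf).1 h3
      · rintro t ⟨ht1, ht2⟩
        have h4 := hs3 (f t) ⟨Finset.mem_map.2 ⟨t, ht1, rfl⟩, by
          rw [← map_inv, ← map_mul]
          exact Subgroup.mem_map_of_mem f ht2⟩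
        exact hf h4
  · rintro ⟨h1, h2⟩
    refine ⟨?_, ?_⟩
    · intro s hs
      obtain ⟨s0, hs0, rfl⟩ := Finset.mem_map.1 hs
      exact Subgroup.mem_map_of_mem f (h1 s0 hs0)
    · intro p hp
      obtain ⟨p0, hp0, rfl⟩ := Subgroup.mem_map.1 hp
      obtain ⟨s0, ⟨hs1, hs2⟩, hs3⟩ := h2 p0 hp0
      refine ⟨f s0, ⟨Finset.mem_map.2 ⟨s0, hs1, rfl⟩, ?_⟩, ?_⟩
      · rw [← map_inv, ← map_mul]
        exact Subgroup.mem_map_of_mem f hs2
      · rintro t ⟨ht1, ht2⟩
        obtain ⟨t0, ht0, rfl⟩ := Finset.mem_map.1 ht1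
        have h3 : (f t0)⁻¹ * f p0 ∈ P'.map f := ht2
        rw [← map_inv, ← map_mul] at h3
        have h4 := hs3 t0 ⟨ht0, (Subgroup.mem_map_iff_mem hf).1 h3⟩
        rw [h4]
        rfl

theorem fx_map {R G H M : Type} [CommRing R] [Group G] [Group H] [AddCommGroup M] [Module R M]
    (f : G →* H) (ρ' : G →* (M →ₗ[R] M)) (ρ : H →* (M →ₗ[R] M)) (h : ∀ g, ρ' g = ρ (f g))
    (P : Subgroup G) : FxR ρ' P = FxR ρ (P.map f) := by
  ext m
  constructor
  · intro hm x hx
    obtain ⟨y, hy, rfl⟩ := Subgroup.mem_map.1 hx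
    rw [← h]
    exact hm y hy
  · intro hm x hx
    rw [h]
    exact hm (f x) (Subgroup.mem_map_of_mem f hx)

theorem bk_map {R G H M : Type} [CommRing R] [Group G] [Group H] [AddCommGroup M] [Module R M]
    (f : G →* H) (hf : Function.Injective f) (ρ' : G →* (M →ₗ[R] M)) (ρ : H →* (M →ₗ[R] M))
    (h : ∀ g, ρ' g = ρ (f g)) (P : Subgroup G) : BKR ρ' P = BKR ρ (P.map f) := by
  unfold BKR
  congr 1
  ext n
  constructor
  · rintro ⟨P', S, m, h1, h2, h3, rfl⟩
    refine ⟨P'.map f, S.map ⟨f, hf⟩, m, (Subgroup.map_lt_map_iff_of_injective hf).2 h1,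
      (isTv_map f hf P' P S).2 h2, ?_, ?_⟩
    · rw [← fx_map f ρ' ρ h]
      exact h3
    · rw [Finset.sum_map]
      refine Finset.sum_congr rfl fun x _ => ?_
      rw [h]
      rfl
  · rintro ⟨Q', S', m, h1, h2, h3, rfl⟩
    have hQ : (Q'.comap f).map f = Q' := by
      apply Subgroup.map_comap_eq_self
      refine h1.le.trans ?_
      exact Subgroup.map_le_range f P
    have hS : (S'.preimage f hf.injOn).map ⟨f, hf⟩ = S' := by
      ext s
      rw [Finset.mem_map]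
      constructor
      · rintro ⟨t, ht, rfl⟩
        exact Finset.mem_preimage.1 ht
      · intro hs
        obtain ⟨t, ht, rfl⟩ := Subgroup.mem_map.1 (h2.1 s hs)
        exact ⟨t, Finset.mem_preimage.2 hs, rfl⟩
    refine ⟨Q'.comap f, S'.preimage f hf.injOn, m, ?_, ?_, ?_, ?_⟩
    · rw [← Subgroup.map_lt_map_iff_of_injective hf, hQ]
      exact h1
    · rw [← isTv_map f hf, hQ, hS]
      exact h2
    · rw [fx_map f ρ' ρ h, hQ]
      exact h3
    · conv_lhs => rw [← hS]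
      rw [Finset.sum_map]
      refine Finset.sum_congr rfl fun x _ => ?_
      rw [h]
      rfl

/-- RES -/
theorem res : S0.ResStmt := by
  intro R V A _ _ _ _ α W P
  have h : ∀ w : W, cw R (α.comp W.subtype) w = cw R α (W.subtype w) := fun w => rfl
  exact ⟨fx_map W.subtype _ _ h P, bk_map W.subtype W.subtype_injective _ _ h P⟩

end Pool.Agent.PSS.H91
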