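import Pool.Agent.PSS.StmtsS3

/-!
# Squad PSS, row GFQ (helper91): the Brauer quotient of the base change
-/

open scoped BigOperators TensorProduct PowerSeries

noncomputable section

namespace Pool.Agent.PSS.H91.Gfq

open Pool.Agent.PFC (tw IsTv)
open Pool.Agent.PFD.D2b (FrR)
open Pool.Agent.PSS
open Pool.Agent.PSS.S0 Pool.Agent.PSS.S3

section bq

variable {R V A B : Type} [CommRing R] [CommGroup V] [Ring A] [Algebra R A] [Ring B] [Algebra R B]
  {α : V →* A} {Q : Subgroup V} {αB : V →* B} {β : A → B}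

theorem cwa (u : V) (a : A) : cw R α u a = α u * (a * α u⁻¹) := rfl

theorem mem_fx {a : A} : a ∈ FxR (cw R α) Q ↔ ∀ u ∈ Q, α u * a = a * α u := by
  constructor
  · intro h u hu
    have h1 : cw R α u a = a := h u hu
    rw [cwa] at h1
    have h2 : α u⁻¹ * α u = 1 := by rw [← map_mul, inv_mul_cancel, map_one]
    calc α u * a = (α u * (a * α u⁻¹)) * α u := by
          rw [mul_assoc, mul_assoc, h2, mul_one]
      _ = a * α u := by rw [h1]
  · intro h u hu
    show cw R α u a = a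
    have h2 : α u * α u⁻¹ = 1 := by rw [← map_mul, mul_inv_cancel, map_one]
    rw [cwa, ← mul_assoc, h u hu, mul_assoc, h2, mul_one]

theorem fx_mul {a b : A} (ha : a ∈ FxR (cw R α) Q) (hb : b ∈ FxR (cw R α) Q) :
    a * b ∈ FxR (cw R α) Q := by
  rw [mem_fx] at ha hb ⊢
  intro u hu
  rw [← mul_assoc, ha u hu, mul_assoc, hb u hu, mul_assoc]

theorem fx_one : (1 : A) ∈ FxR (cw R α) Q := by
  rw [mem_fx]
  intro u _
  rw [one_mul, mul_one]

theorem fx_al (w : V) : α w ∈ FxR (cw R α) Q := by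
  rw [mem_fx]
  intro u _
  rw [← map_mul, ← map_mul, mul_comm]

/-- the Brauer map as a linear map -/
def bl (h : IsBQ R α Q αB β) : FxR (cw R α) Q →ₗ[R] B where
  toFun a := β a
  map_add' a b := h.add a a.2 b b.2
  map_smul' r a := h.smul r a a.2

theorem bl_apply (h : IsBQ R α Q αB β) (a : FxR (cw R α) Q) : bl h a = β a := rfl

theorem bq_sub (h : IsBQ R α Q αB β) {a b : A} (ha : a ∈ FxR (cw R α) Q)
    (hb : b ∈ FxR (cw R α) Q) : β (a - b) = β a - β b :=
  map_sub (bl h) ⟨a, ha⟩ ⟨b, hb⟩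

theorem bq_eq (h : IsBQ R α Q αB β) {a b : A} (ha : a ∈ FxR (cw R α) Q)
    (hb : b ∈ FxR (cw R α) Q) : β a = β b ↔ a - b ∈ BKR (cw R α) Q := by
  rw [← h.ker (a - b) (Submodule.sub_mem _ ha hb), bq_sub h ha hb, sub_eq_zero]

theorem bq_zero (h : IsBQ R α Q αB β) : β 0 = 0 := map_zero (bl h)

theorem bq_sum {ι : Type} (h : IsBQ R α Q αB β) (s : Finset ι) (c : ι → R) (a : ι → A)
    (ha : ∀ i ∈ s, a i ∈ FxR (cw R α) Q) : β (∑ i ∈ s, c i • a i) = ∑ i ∈ s, c i • β (a i) := by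
  classical
  induction s using Finset.induction_on with
  | empty =>
    rw [Finset.sum_empty, Finset.sum_empty]
    exact bq_zero h
  | insert i s hi ih =>
    rw [Finset.sum_insert hi, Finset.sum_insert hi]
    have h1 : a i ∈ FxR (cw R α) Q := ha i (Finset.mem_insert_self i s)
    have h2 : ∀ j ∈ s, a j ∈ FxR (cw R α) Q := fun j hj => ha j (Finset.mem_insert_of_mem hj)
    rw [h.add _ (Submodule.smul_mem _ _ h1) _
      (Submodule.sum_mem _ fun j hj => Submodule.smul_mem _ _ (h2 j hj)), h.smul _ _ h1, ih h2]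

end bq

section bc

variable {R S W A : Type} [CommRing R] [CommRing S] [Algebra R S] [CommGroup W] [Ring A]
  [Algebra R A] (γ : W →* A)

theorem bcw_apply (w : W) : bcw (R := R) (S := S) γ w = (1 : S) ⊗ₜ[R] γ w := rfl

/-- base change of a functional -/
def bcf (c : A →ₗ[R] R) : S ⊗[R] A →ₗ[S] S :=
  (TensorProduct.AlgebraTensorModule.rid R S S).toLinearMap ∘ₗ (c.baseChange S)

theorem bcf_tmul (c : A →ₗ[R] R) (s : S) (a : A) :
    bcf (S := S) c (s ⊗ₜ[R] a) = c a • s := by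
  simp [bcf]

theorem bcf_sum {Ω : Type} [Fintype Ω] (b : Ω → A) (c : Ω → (A →ₗ[R] R))
    (h : ∀ n, ∑ t, c t n • b t = n) (m : S ⊗[R] A) :
    ∑ t, bcf (S := S) (c t) m • ((1 : S) ⊗ₜ[R] b t) = m := by
  induction m using TensorProduct.induction_on with
  | zero => simp
  | tmul s a =>
    have h1 : ∀ t, bcf (S := S) (c t) (s ⊗ₜ[R] a) • ((1 : S) ⊗ₜ[R] b t) =
        s ⊗ₜ[R] (c t a • b t) := by
      intro t
      rw [bcf_tmul, TensorProduct.smul_tmul', smul_eq_mul, mul_one, TensorProduct.smul_tmul]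
    rw [Finset.sum_congr rfl fun t _ => h1 t, ← TensorProduct.tmul_sum, h a]
  | add x y hx hy =>
    rw [Finset.sum_congr rfl fun t _ => by rw [map_add, add_smul], Finset.sum_add_distrib, hx, hy]

theorem bcf_eq {Ω : Type} [Fintype Ω] [MulAction (W × W) Ω] {b : Ω → A} {c : Ω → (A →ₗ[R] R)}
    (h : FrR (bw R γ) b c) (g : W) (ω : Ω) (m : S ⊗[R] A) :
    bcf (S := S) (c (((g, g) : W × W) • ω)) (cw S (bcw (R := R) (S := S) γ) g m) =
      bcf (S := S) (c ω) m := by
  induction m using TensorProduct.induction_on with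
  | zero => simp
  | tmul s a =>
    have h1 : cw S (bcw (R := R) (S := S) γ) g (s ⊗ₜ[R] a) = s ⊗ₜ[R] (bw R γ (g, g) a) := by
      rw [cwa, bcw_apply, bcw_apply, Algebra.TensorProduct.tmul_mul_tmul,
        Algebra.TensorProduct.tmul_mul_tmul, one_mul, mul_one]
      rfl
    rw [h1, bcf_tmul, bcf_tmul, h.2.1]
  | add x y hx hy => rw [map_add, map_add, map_add, hx, hy]

end bc

/-- GFQ -/
theorem gfq (hGFB : GfbStmt) (hFPX : FpxStmt) (hLMB : LmbStmt) : GfqStmt := by
  intro ℓ _ R S W E A Bs D K KB _ _ _ _ _ _ _ _ _ _ _ _ _ _ ψ γ lam x y Q γB βs γD βD lamB xs ys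
    hl hp hRF hPer hUni hB hD hRB hlB
  classical
  obtain ⟨⟨lamS, hlamS, hRS⟩, -, -, hfix⟩ := hGFB R S W E A K ψ γ lam x y hRF hPer hUni
  obtain ⟨hfx, hbk⟩ := hfix Q
  -- the ring homomorphism
  choose s hs hsb using hB.surj
  have key : ∀ a ∈ FxR (cw R γ) Q, βD (1 ⊗ₜ[R] s (βs a)) = βD (1 ⊗ₜ[R] a) := by
    intro a ha
    rw [bq_eq hD (hfx _ (hs _)) (hfx a ha), ← TensorProduct.tmul_sub]
    exact hbk _ ((bq_eq hB (hs _) ha).1 (hsb _))
  let κ : Bs →+* D :=
    { toFun := fun b => βD (1 ⊗ₜ[R] s b)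
      map_one' := by
        have h1 := key 1 fx_one
        rw [hB.one] at h1
        rw [h1]
        exact hD.one
      map_mul' := by
        intro b b'
        have h1 := key (s b * s b') (fx_mul (hs b) (hs b'))
        rw [hB.mul _ (hs b) _ (hs b'), hsb, hsb] at h1
        rw [h1, ← hD.mul _ (hfx _ (hs b)) _ (hfx _ (hs b')),
          Algebra.TensorProduct.tmul_mul_tmul, one_mul]
      map_zero' := by
        have h1 := key 0 (Submodule.zero_mem _)
        rw [bq_zero hB, TensorProduct.tmul_zero, bq_zero hD] at h1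
        exact h1
      map_add' := by
        intro b b'
        have h1 := key (s b + s b') (Submodule.add_mem _ (hs b) (hs b'))
        rw [hB.add _ (hs b) _ (hs b'), hsb, hsb] at h1
        rw [h1, ← hD.add _ (hfx _ (hs b)) _ (hfx _ (hs b')), TensorProduct.tmul_add] }
  have hκ : ∀ a ∈ FxR (cw R γ) Q, κ (βs a) = βD (1 ⊗ₜ[R] a) := key
  have hκr : ∀ (r : R) b, κ (r • b) = algebraMap R S r • κ b := by
    intro r b
    have h1 : κ (r • b) = κ (βs (r • s b)) := by rw [hB.smul r _ (hs b), hsb]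
    have h2 : κ b = βD (1 ⊗ₜ[R] s b) := by rw [← hκ _ (hs b), hsb]
    rw [h1, hκ _ (Submodule.smul_mem _ _ (hs b)), h2, ← hD.smul _ _ (hfx _ (hs b))]
    congr 1
    rw [TensorProduct.smul_tmul', smul_eq_mul, mul_one, TensorProduct.tmul_smul,
      TensorProduct.smul_tmul', Algebra.smul_def, mul_one]
  have hκw : ∀ w, κ (γB w) = γD w := by
    intro w
    rw [← hB.om w, hκ _ (fx_al w), ← hD.om w]
    rfl
  -- the form
  have hlS : (ℓ : S) = 0 := by
    rw [← map_natCast (algebraMap R S) ℓ, hl, map_zero]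
  obtain ⟨lamD, hlamD⟩ := hLMB ℓ S W (S ⊗[R] A) D (bcw (R := R) (S := S) γ) Q γD βD lamS hlS hp
    hRS.sym hD
  have hlκ : ∀ b, lamD (κ b) = algebraMap R S (lamB b) := by
    intro b
    have h2 : κ b = βD (1 ⊗ₜ[R] s b) := by rw [← hκ _ (hs b), hsb]
    rw [h2, hlamD _ (hfx _ (hs b)), hlamS, one_mul, ← hlB _ (hs b), hsb]
  -- `D` is spanned by the image of `κ`
  have hspan : ∀ d : D, d ∈ Submodule.span S (Set.range κ) := by
    intro d
    obtain ⟨m, hm, rfl⟩ := hD.surj d
    obtain ⟨Ω, _, _, b, c, hfr, -⟩ := hPer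
    letI : MulAction W Ω := MulAction.compHom Ω ((MonoidHom.id W).prod (MonoidHom.id W))
    have hsm : ∀ (h : W) (ω : Ω), h • ω = ((h, h) : W × W) • ω := fun h ω => rfl
    have h1 := hFPX S W (S ⊗[R] A) Ω (cw S (bcw (R := R) (S := S) γ)) Q
      (fun ω => bcf (S := S) (c ω) m • ((1 : S) ⊗ₜ[R] b ω))
      (Finset.univ.filter fun ω => ∀ h ∈ Q, h • ω = ω) (by
        intro h hh ω
        have h2 : bcf (S := S) (c (h • ω)) m = bcf (S := S) (c ω) m := by
          have h3 := bcf_eq (S := S) γ hfr h ω m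
          have h4 : cw S (bcw (R := R) (S := S) γ) h m = m := hm h hh
          rw [h4] at h3
          exact h3
        have h5 : b (h • ω) = bw R γ (h, h) (b ω) := hfr.1 (h, h) ω
        rw [h2, h5, map_smul]
        congr 1
        rw [cwa, bcw_apply, bcw_apply, Algebra.TensorProduct.tmul_mul_tmul,
          Algebra.TensorProduct.tmul_mul_tmul, one_mul, mul_one]
        rfl) (by
        intro ω
        rw [Finset.mem_filter]
        exact ⟨fun h => h.2, fun h => ⟨Finset.mem_univ _, h⟩⟩)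
    rw [bcf_sum b c hfr.2.2 m] at h1
    have hbf : ∀ ω ∈ Finset.univ.filter (fun ω : Ω => ∀ h ∈ Q, h • ω = ω),
        b ω ∈ FxR (cw R γ) Q := by
      intro ω hω
      rw [Finset.mem_filter] at hω
      intro h hh
      have h2 : b (h • ω) = cw R γ h (b ω) := hfr.1 (h, h) ω
      rw [← h2, hω.2 h hh]
    have hsum : ∑ ω ∈ Finset.univ.filter (fun ω : Ω => ∀ h ∈ Q, h • ω = ω),
        bcf (S := S) (c ω) m • ((1 : S) ⊗ₜ[R] b ω) ∈ FxR (cw S (bcw (R := R) (S := S) γ)) Q :=
      Submodule.sum_mem _ fun ω hω => Submodule.smul_mem _ _ (hfx _ (hbf ω hω))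
    rw [(bq_eq hD hm hsum).2 h1, bq_sum hD _ _ _ (fun ω hω => hfx _ (hbf ω hω))]
    refine Submodule.sum_mem _ fun ω hω => Submodule.smul_mem _ _ ?_
    rw [← hκ _ (hbf ω hω)]
    exact Submodule.subset_span ⟨_, rfl⟩
  refine ⟨κ, lamD, hκ, hκr, hκw, ?_, ?_, ?_⟩
  · intro a b
    obtain ⟨m, hm, rfl⟩ := hD.surj a
    obtain ⟨n, hn, rfl⟩ := hD.surj b
    rw [← hD.mul _ hm _ hn, ← hD.mul _ hn _ hm, hlamD _ (fx_mul hm hn), hlamD _ (fx_mul hn hm)]
    exact hRS.sym m n
  · intro d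
    induction hspan d using Submodule.span_induction with
    | mem d hd =>
      obtain ⟨b, rfl⟩ := hd
      have h1 : ∀ k w, lamD (γD w⁻¹ * κ (ys k) * κ b) • (κ (xs k) * γD w) =
          κ (lamB (γB w⁻¹ * ys k * b) • (xs k * γB w)) := by
        intro k w
        have e1 : γD w⁻¹ * κ (ys k) * κ b = κ (γB w⁻¹ * ys k * b) := by
          rw [map_mul κ, map_mul κ, hκw]
        have e2 : κ (xs k) * γD w = κ (xs k * γB w) := by rw [map_mul κ, hκw]
        rw [e1, e2, hlκ, hκr]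
      simp_rw [h1, ← map_sum]
      rw [hRB.e1]
    | zero => simp
    | add d d' _ _ hd hd' =>
      simp only [mul_add, map_add, add_smul, Finset.sum_add_distrib]
      rw [hd, hd']
    | smul r d _ hd =>
      have h1 : ∀ k w, lamD (γD w⁻¹ * κ (ys k) * (r • d)) • (κ (xs k) * γD w) =
          r • (lamD (γD w⁻¹ * κ (ys k) * d) • (κ (xs k) * γD w)) := by
        intro k w
        rw [mul_smul_comm, map_smul, smul_eq_mul, mul_smul]
      simp_rw [h1, ← Finset.smul_sum]
      rw [hd]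
  · intro d
    induction hspan d using Submodule.span_induction with
    | mem d hd =>
      obtain ⟨b, rfl⟩ := hd
      have h1 : ∀ k w, lamD (κ b * (κ (xs k) * γD w)) • (γD w⁻¹ * κ (ys k)) =
          κ (lamB (b * (xs k * γB w)) • (γB w⁻¹ * ys k)) := by
        intro k w
        have e1 : κ b * (κ (xs k) * γD w) = κ (b * (xs k * γB w)) := by
          rw [map_mul κ, map_mul κ, hκw]
        have e2 : γD w⁻¹ * κ (ys k) = κ (γB w⁻¹ * ys k) := by rw [map_mul κ, hκw]
        rw [e1, e2, hlκ, hκr]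
      simp_rw [h1, ← map_sum]
      rw [hRB.e2]
    | zero => simp
    | add d d' _ _ hd hd' =>
      simp only [add_mul, map_add, add_smul, Finset.sum_add_distrib]
      rw [hd, hd']
    | smul r d _ hd =>
      have h1 : ∀ k w, lamD (r • d * (κ (xs k) * γD w)) • (γD w⁻¹ * κ (ys k)) =
          r • (lamD (d * (κ (xs k) * γD w)) • (γD w⁻¹ * κ (ys k))) := by
        intro k w
        rw [smul_mul_assoc, map_smul, smul_eq_mul, mul_smul]
      simp_rw [h1, ← Finset.smul_sum]
      rw [hd]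

end Pool.Agent.PSS.H91.Gfq
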