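import Pool.Agent.PSS.StmtsS1d

/-!
# Squad PSS, row CEN (helper91): central elements lift
-/

open scoped BigOperators

noncomputable section

namespace Pool.Agent.PSS.H91

open Finset
open Pool.Agent.PSS
open Pool.Agent.PSS.Dm (cst)

/-- regrouping of a triple sum over the antidiagonal -/
theorem trip {M : Type} [AddCommMonoid M] (n : ℕ) (S : ℕ → ℕ → ℕ → M) :
    ∑ p ∈ antidiagonal n, ∑ q ∈ antidiagonal p.2, S p.1 q.1 q.2 =
    ∑ p ∈ antidiagonal n, ∑ q ∈ antidiagonal p.1, S q.1 q.2 p.2 := by
  rw [Finset.sum_sigma', Finset.sum_sigma']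
  refine Finset.sum_nbij'
    (i := fun x => ⟨(x.1.1 + x.2.1, x.2.2), (x.1.1, x.2.1)⟩)
    (j := fun x => ⟨(x.2.1, x.2.2 + x.1.2), (x.2.2, x.1.2)⟩) ?_ ?_ ?_ ?_ ?_
  · rintro ⟨⟨a, b⟩, ⟨c, d⟩⟩ h
    simp only [mem_sigma, Finset.HasAntidiagonal.mem_antidiagonal] at h ⊢
    refine ⟨?_, trivial⟩
    omega
  · rintro ⟨⟨a, b⟩, ⟨c, d⟩⟩ h
    simp only [mem_sigma, Finset.HasAntidiagonal.mem_antidiagonal] at h ⊢
    refine ⟨?_, trivial⟩
    omega
  · rintro ⟨⟨a, b⟩, ⟨c, d⟩⟩ h
    simp only [mem_sigma, Finset.HasAntidiagonal.mem_antidiagonal] at h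
    obtain ⟨h1, h2⟩ := h
    subst h2
    rfl
  · rintro ⟨⟨a, b⟩, ⟨c, d⟩⟩ h
    simp only [mem_sigma, Finset.HasAntidiagonal.mem_antidiagonal] at h
    obtain ⟨h1, h2⟩ := h
    subst h2
    rfl
  · rintro ⟨⟨a, b⟩, ⟨c, d⟩⟩ h
    rfl

/-- regrouping of a triple sum over the antidiagonal, second form -/
theorem trip' {M : Type} [AddCommMonoid M] (n : ℕ) (S : ℕ → ℕ → ℕ → M) :
    ∑ p ∈ antidiagonal n, ∑ q ∈ antidiagonal p.2, S p.1 q.1 q.2 =
    ∑ p ∈ antidiagonal n, ∑ q ∈ antidiagonal p.1, S q.1 p.2 q.2 := by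
  rw [← trip n (fun a b c => S a c b)]
  refine Finset.sum_congr rfl fun p _ => ?_
  rw [← Finset.Nat.sum_antidiagonal_swap (f := fun q : ℕ × ℕ => S p.1 q.1 q.2)]
  rfl

section

variable {k A W : Type} [CommRing k] [Ring A] [Algebra k A] [Group W] {om : W →* A}
  (D : Dm k om)

/-- the commutator of a sequence with a constant -/
def cm (f : ℕ → A) (n : ℕ) : A →ₗ[k] A :=
  ∑ p ∈ antidiagonal n, (D.m p.1 (f p.2) - (D.m p.1).flip (f p.2))

theorem cm_apply (f : ℕ → A) (n : ℕ) (a : A) :
    cm D f n a = ∑ p ∈ antidiagonal n, (D.m p.1 (f p.2) a - D.m p.1 a (f p.2)) := by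
  rw [cm, LinearMap.sum_apply]
  rfl

theorem cm_congr {f g : ℕ → A} {n : ℕ} (h : ∀ i ≤ n, f i = g i) : cm D f n = cm D g n := by
  rw [cm, cm]
  refine Finset.sum_congr rfl fun p hp => ?_
  rw [Finset.HasAntidiagonal.mem_antidiagonal] at hp
  rw [h p.2 (by omega)]

/-- the commutator of two sequences -/
theorem comm_eq (f g : ℕ → A) (n : ℕ) :
    D.mul f g n - D.mul g f n = ∑ p ∈ antidiagonal n, cm D f p.1 (g p.2) := by
  have e1 : D.mul f g n = ∑ p ∈ antidiagonal n, ∑ q ∈ antidiagonal p.1,
      D.m q.1 (f q.2) (g p.2) := by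
    rw [Dm.mul]
    exact trip n (fun a b c => D.m a (f b) (g c))
  have e2 : D.mul g f n = ∑ p ∈ antidiagonal n, ∑ q ∈ antidiagonal p.1,
      D.m q.1 (g p.2) (f q.2) := by
    rw [Dm.mul]
    exact trip' n (fun a b c => D.m a (g b) (f c))
  rw [e1, e2, ← Finset.sum_sub_distrib]
  refine Finset.sum_congr rfl fun p _ => ?_
  rw [cm_apply, Finset.sum_sub_distrib]

/-- the commutator of a truncated sequence which is central up to the degree `N` -/
theorem comm_low {f : ℕ → A} {N : ℕ} (h : ∀ n ≤ N, cm D f n = 0) (g : ℕ → A) (n : ℕ)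
    (hn : n ≤ N) : D.mul f g n - D.mul g f n = 0 := by
  rw [comm_eq]
  refine Finset.sum_eq_zero fun p hp => ?_
  rw [Finset.HasAntidiagonal.mem_antidiagonal] at hp
  rw [h p.1 (by omega), LinearMap.zero_apply]

theorem comm_top {f : ℕ → A} {N : ℕ} (h : ∀ n ≤ N, cm D f n = 0) (g : ℕ → A) :
    D.mul f g (N + 1) - D.mul g f (N + 1) = cm D f (N + 1) (g 0) := by
  rw [comm_eq, Finset.sum_eq_single (N + 1, 0)]
  · rintro ⟨a, b⟩ hp hne
    rw [Finset.HasAntidiagonal.mem_antidiagonal] at hp
    simp only at hp ⊢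
    have ha : a ≤ N := by
      by_contra hlt
      apply hne
      have : a = N + 1 := by omega
      subst this
      have : b = 0 := by omega
      subst this
      rfl
    rw [h a ha, LinearMap.zero_apply]
  · intro hh
    exact absurd (Finset.HasAntidiagonal.mem_antidiagonal.2 (Nat.add_zero (N + 1))) hh

theorem mul_zero_deg (f g : ℕ → A) : D.mul f g 0 = f 0 * g 0 := by
  rw [Dm.mul, Finset.Nat.antidiagonal_zero, Finset.sum_singleton, Finset.Nat.antidiagonal_zero,
    Finset.sum_singleton, D.m0]

/-- the leading coefficient of a product, left factor of order `N + 1` -/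
theorem mul_lead_left {u : ℕ → A} {N : ℕ} (hu : ∀ n ≤ N, u n = 0) (g : ℕ → A) :
    D.mul u g (N + 1) = u (N + 1) * g 0 := by
  rw [Dm.mul, Finset.sum_eq_single (0, N + 1)]
  · rw [Finset.sum_eq_single (N + 1, 0)]
    · simp only [D.m0]
    · rintro ⟨a, b⟩ hp hne
      rw [Finset.HasAntidiagonal.mem_antidiagonal] at hp
      simp only at hp ⊢
      have ha : a ≤ N := by
        by_contra hlt
        apply hne
        have : a = N + 1 := by omega
        subst this
        have : b = 0 := by omega
        subst this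
        rfl
      rw [hu a ha, map_zero, LinearMap.zero_apply]
    · intro hh
      exact absurd (Finset.HasAntidiagonal.mem_antidiagonal.2 (Nat.add_zero (N + 1))) hh
  · rintro ⟨a, b⟩ hp hne
    rw [Finset.HasAntidiagonal.mem_antidiagonal] at hp
    refine Finset.sum_eq_zero ?_
    rintro ⟨c, d⟩ hq
    rw [Finset.HasAntidiagonal.mem_antidiagonal] at hq
    simp only at hp hq ⊢
    have hc : c ≤ N := by
      by_contra hlt
      apply hne
      have : b = N + 1 := by omega
      subst this
      have : a = 0 := by omega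
      subst this
      rfl
    rw [hu c hc, map_zero, LinearMap.zero_apply]
  · intro hh
    exact absurd (by rw [Finset.HasAntidiagonal.mem_antidiagonal]; simp) hh

/-- the leading coefficient of a product, right factor of order `N + 1` -/
theorem mul_lead_right {u : ℕ → A} {N : ℕ} (hu : ∀ n ≤ N, u n = 0) (g : ℕ → A) :
    D.mul g u (N + 1) = g 0 * u (N + 1) := by
  rw [Dm.mul, Finset.sum_eq_single (0, N + 1)]
  · rw [Finset.sum_eq_single (0, N + 1)]
    · simp only [D.m0]
    · rintro ⟨a, b⟩ hp hne
      rw [Finset.HasAntidiagonal.mem_antidiagonal] at hp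
      simp only at hp ⊢
      have ha : b ≤ N := by
        by_contra hlt
        apply hne
        have : b = N + 1 := by omega
        subst this
        have : a = 0 := by omega
        subst this
        rfl
      rw [hu b ha, map_zero]
    · intro hh
      exact absurd (by rw [Finset.HasAntidiagonal.mem_antidiagonal]; simp) hh
  · rintro ⟨a, b⟩ hp hne
    rw [Finset.HasAntidiagonal.mem_antidiagonal] at hp
    refine Finset.sum_eq_zero ?_
    rintro ⟨c, d⟩ hq
    rw [Finset.HasAntidiagonal.mem_antidiagonal] at hq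
    simp only at hp hq ⊢
    have hc : d ≤ N := by
      by_contra hlt
      apply hne
      have : b = N + 1 := by omega
      subst this
      have : a = 0 := by omega
      subst this
      rfl
    rw [hu d hc, map_zero]
  · intro hh
    exact absurd (by rw [Finset.HasAntidiagonal.mem_antidiagonal]; simp) hh

theorem mul_add_l (f g h : ℕ → A) : D.mul (f + g) h = D.mul f h + D.mul g h := by
  have h1 : D.of (D.mul (f + g) h) = D.of (D.mul f h + D.mul g h) := by
    rw [D.of_mul, D.of_add, D.of_add, D.of_mul, D.of_mul, add_mul]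
  rw [← D.sq_of (D.mul (f + g) h), h1, D.sq_of]

/-- the commutator as a sequence -/
theorem of_comm (f g : ℕ → A) :
    D.of (fun n => D.mul f g n - D.mul g f n) = D.of f * D.of g - D.of g * D.of f := by
  rw [← D.of_mul, ← D.of_mul, sub_eq_add_neg, ← D.of_neg, ← D.of_add]
  congr 1
  funext n
  rw [Pi.add_apply, Pi.neg_apply, sub_eq_add_neg]

/-- the obstruction is a derivation -/
theorem der {f : ℕ → A} {N : ℕ} (h : ∀ n ≤ N, cm D f n = 0) (a b : A) :
    cm D f (N + 1) (a * b) = cm D f (N + 1) a * b + a * cm D f (N + 1) b := by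
  set u : ℕ → A := fun n => D.mul f (cst a) n - D.mul (cst a) f n with hu
  set v : ℕ → A := fun n => D.mul f (cst b) n - D.mul (cst b) f n with hv
  set g : ℕ → A := D.mul (cst a) (cst b) with hg
  have e : D.of (fun n => D.mul f g n - D.mul g f n) =
      D.of (D.mul u (cst b) + D.mul (cst a) v) := by
    have eu : D.of u = D.of f * D.of (cst a) - D.of (cst a) * D.of f := of_comm D f (cst a)
    have ev : D.of v = D.of f * D.of (cst b) - D.of (cst b) * D.of f := of_comm D f (cst b)
    rw [of_comm, D.of_add, D.of_mul u, D.of_mul (cst a) v, eu, ev, hg, D.of_mul]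
    noncomm_ring
  have hul : ∀ n ≤ N, u n = 0 := fun n hn => comm_low D h (cst a) n hn
  have hvl : ∀ n ≤ N, v n = 0 := fun n hn => comm_low D h (cst b) n hn
  have e2 := congrArg (fun x => D.sq x (N + 1)) e
  simp only [D.sq_of] at e2
  rw [comm_top D h g, Pi.add_apply, mul_lead_left D hul, mul_lead_right D hvl] at e2
  have h0 : g 0 = a * b := by
    rw [hg, mul_zero_deg]
    simp [cst]
  rw [h0] at e2
  rw [e2]
  have hua : u (N + 1) = cm D f (N + 1) a := by
    rw [hu]
    simp only
    rw [comm_top D h (cst a)]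
    simp [cst]
  have hvb : v (N + 1) = cm D f (N + 1) b := by
    rw [hv]
    simp only
    rw [comm_top D h (cst b)]
    simp [cst]
  rw [hua, hvb]
  simp [cst]

/-- one step -/
theorem step (hH : H1P k om) (f : ℕ → A) (N : ℕ) (h : ∀ n ≤ N, cm D f n = 0) :
    ∃ f' : ℕ → A, (∀ n ≤ N, f' n = f n) ∧ ∀ n ≤ N + 1, cm D f' n = 0 := by
  set t : ℕ → A := fun n => if n ≤ N then f n else 0 with ht
  have htn : ∀ n ≤ N, cm D t n = 0 := by
    intro n hn
    rw [← h n hn]
    refine cm_congr D fun i hi => ?_
    rw [ht]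
    simp only
    rw [if_pos (hi.trans hn)]
  have htop : t (N + 1) = 0 := by
    rw [ht]
    simp
  obtain ⟨e, -, he⟩ := hH (cm D t (N + 1)) (fun a b => der D htn a b) (by
    intro w
    rw [cm_apply]
    refine Finset.sum_eq_zero ?_
    rintro ⟨i, j⟩ hp
    rw [Finset.HasAntidiagonal.mem_antidiagonal] at hp
    simp only at hp ⊢
    rcases i with _ | i
    · have : j = N + 1 := by omega
      subst this
      rw [htop, map_zero, LinearMap.zero_apply, map_zero, sub_zero]
    · rw [D.m_om_right, D.m_om_left, sub_zero])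
  refine ⟨Function.update t (N + 1) e, ?_, ?_⟩
  · intro n hn
    rw [Function.update_of_ne (by omega), ht]
    simp only
    rw [if_pos hn]
  · intro n hn
    rcases Nat.lt_or_ge N n with hlt | hle
    · have : n = N + 1 := by omega
      subst this
      ext a
      have h1 : cm D (Function.update t (N + 1) e) (N + 1) a =
          cm D t (N + 1) a + (e * a - a * e) := by
        rw [cm_apply, cm_apply, Finset.Nat.antidiagonal_succ, Finset.sum_cons, Finset.sum_cons]
        have h2 : ∑ p ∈ (antidiagonal N).map (Function.Embedding.prodMap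
            ⟨Nat.succ, Nat.succ_injective⟩ (Function.Embedding.refl ℕ)),
            (D.m p.1 (Function.update t (N + 1) e p.2) a -
              D.m p.1 a (Function.update t (N + 1) e p.2)) =
            ∑ p ∈ (antidiagonal N).map (Function.Embedding.prodMap
            ⟨Nat.succ, Nat.succ_injective⟩ (Function.Embedding.refl ℕ)),
            (D.m p.1 (t p.2) a - D.m p.1 a (t p.2)) := by
          refine Finset.sum_congr rfl fun p hp => ?_
          rw [Finset.mem_map] at hp
          obtain ⟨q, hq, rfl⟩ := hp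
          rw [Finset.HasAntidiagonal.mem_antidiagonal] at hq
          have : q.2 ≠ N + 1 := by omega
          simp only [Function.Embedding.prodMap, Function.Embedding.coeFn_mk, Prod.map_snd,
            Function.Embedding.refl_apply]
          rw [Function.update_of_ne this]
        rw [h2]
        simp only [Function.update_self, htop, D.m0, zero_mul, mul_zero, sub_zero, zero_add]
        abel
      rw [h1, he]
      simp
    · rw [← htn n hle]
      refine cm_congr D fun i hi => ?_
      rw [Function.update_of_ne (by omega)]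

end

/-- CEN -/
theorem cen : CenStmt := by
  intro k W A _ _ _ _ om D hH z hz
  classical
  let P : ℕ → (ℕ → A) → Prop := fun N f => f 0 = z ∧ ∀ n ≤ N, cm D f n = 0
  have hstep : ∀ N (f : {f : ℕ → A // P N f}), ∃ f' : {f : ℕ → A // P (N + 1) f},
      ∀ n ≤ N, f'.1 n = f.1 n := by
    intro N f
    obtain ⟨f', h1, h2⟩ := step D hH f.1 N f.2.2
    exact ⟨⟨f', by rw [h1 0 (Nat.zero_le N), f.2.1], h2⟩, h1⟩
  choose nx hnx using hstep
  have h0 : P 0 (cst z) := by
    refine ⟨by simp [cst], ?_⟩
    intro n hn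
    have : n = 0 := by omega
    subst this
    ext a
    rw [cm_apply, Finset.Nat.antidiagonal_zero, Finset.sum_singleton, D.m0, D.m0]
    simp only [cst, if_true]
    rw [hz a, sub_self, LinearMap.zero_apply]
  let F : (N : ℕ) → {f : ℕ → A // P N f} := fun N => Nat.rec ⟨cst z, h0⟩ (fun N f => nx N f) N
  have hF : ∀ N, F (N + 1) = nx N (F N) := fun N => rfl
  have hFe : ∀ N n, n ≤ N → (F N).1 n = (F n).1 n := by
    intro N
    induction N with
    | zero =>
      intro n hn
      have : n = 0 := by omega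
      subst this
      rfl
    | succ N ih =>
      intro n hn
      rcases Nat.lt_or_ge N n with hlt | hle
      · have : n = N + 1 := by omega
        subst this
        rfl
      · rw [hF, hnx N (F N) n hle, ih n hle]
  let y : ℕ → A := fun n => (F n).1 n
  have hy : ∀ n, cm D y n = 0 := by
    intro n
    rw [← (F n).2.2 n le_rfl]
    exact cm_congr D fun i hi => (hFe n i hi).symm
  refine ⟨D.of y, ?_, ?_⟩
  · intro x
    rw [← D.of_sq x, ← D.of_mul, ← D.of_mul]
    congr 1
    funext n
    have h1 := comm_eq D y (D.sq x) n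
    have h2 : ∑ p ∈ antidiagonal n, cm D y p.1 (D.sq x p.2) = 0 :=
      Finset.sum_eq_zero fun p _ => by rw [hy, LinearMap.zero_apply]
    rw [h2] at h1
    exact sub_eq_zero.1 h1
  · rw [D.sq_of]
    exact (F 0).2.1

end Pool.Agent.PSS.H91
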