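import Pool.Agent.PSS.StmtsS2

/-!
# Squad PSS, block S2, row THL
-/

open scoped BigOperators

namespace Pool.Agent.PSS.S2.H91

/-- THL -/
theorem thl : ThlStmt := by
  intro R V A K _ _ _ _ _ _ q α lam x y f hRF hf a
  choose d hd using hf
  have hd' : ∀ b v, f (b * α v) = f b * α v + q • d b v := by
    intro b v
    rw [← hd b v]
    abel
  -- the expansion of `f (a * x k)`
  have h1 : ∀ k, f (a * x k) =
      (∑ j, ∑ v, lam (α v⁻¹ * y j * (a * x k)) • (f (x j) * α v)) +
        q • ∑ j, ∑ v, lam (α v⁻¹ * y j * (a * x k)) • d (x j) v := by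
    intro k
    conv_lhs => rw [← hRF.e1 (a * x k)]
    rw [map_sum, Finset.smul_sum, ← Finset.sum_add_distrib]
    refine Finset.sum_congr rfl fun j _ => ?_
    rw [map_sum, Finset.smul_sum, ← Finset.sum_add_distrib]
    refine Finset.sum_congr rfl fun v _ => ?_
    rw [map_smul, hd', smul_add, smul_comm q]
  -- the main term
  have h2 : ∀ j, ∑ k, ∑ v, lam (α v⁻¹ * y j * (a * x k)) • (α v * y k) = y j * a := by
    intro j
    conv_rhs => rw [← hRF.e2 (y j * a)]
    refine Finset.sum_congr rfl fun k _ => ?_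
    rw [← Equiv.sum_comp (Equiv.inv V)]
    refine Finset.sum_congr rfl fun v _ => ?_
    rw [Equiv.inv_apply, inv_inv]
    congr 1
    have h3 : α v * y j * (a * x k) = α v * (y j * a * x k) := by
      simp only [mul_assoc]
    rw [h3, hRF.sym]
    simp only [mul_assoc]
  refine ⟨∑ k, (∑ j, ∑ v, lam (α v⁻¹ * y j * (a * x k)) • d (x j) v) * y k, ?_⟩
  have h4 : ∑ k, f (a * x k) * y k =
      (∑ k, (∑ j, ∑ v, lam (α v⁻¹ * y j * (a * x k)) • (f (x j) * α v)) * y k) +
      q • ∑ k, (∑ j, ∑ v, lam (α v⁻¹ * y j * (a * x k)) • d (x j) v) * y k := by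
    rw [Finset.smul_sum, ← Finset.sum_add_distrib]
    refine Finset.sum_congr rfl fun k _ => ?_
    rw [h1 k, add_mul, smul_mul_assoc]
  have h5 : (∑ k, (∑ j, ∑ v, lam (α v⁻¹ * y j * (a * x k)) • (f (x j) * α v)) * y k) =
      (∑ j, f (x j) * y j) * a := by
    rw [Finset.sum_mul]
    simp_rw [Finset.sum_mul]
    rw [Finset.sum_comm]
    refine Finset.sum_congr rfl fun j _ => ?_
    rw [mul_assoc (f (x j)) (y j) a, ← h2 j, Finset.mul_sum]
    refine Finset.sum_congr rfl fun k _ => ?_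
    rw [Finset.mul_sum]
    refine Finset.sum_congr rfl fun v _ => ?_
    rw [smul_mul_assoc, mul_smul_comm, mul_assoc (f (x j))]
  rw [h4, h5, add_sub_cancel_left]

end Pool.Agent.PSS.S2.H91
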